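import Pool.Agent.Q267.Landen.Eval

/-!
# MP_8625e1_nt

`∑_{k=0}^{(p-1)/2} C(2k,k)^3 (H_{2k} - H_k) ≡ 0 (mod p)` for every prime `p > 3`.
-/

namespace Pool.Agent.Results.MP_8625e1_nt.JamesonOno

open Finset Pool.Agent.Q267.Landen

/-- The harmonic number `H_n = ∑_{j=1}^n 1/j`. -/
def H (n : ℕ) : ℚ := ∑ j ∈ Icc 1 n, (1 : ℚ) / j

/-- `S(p) = ∑_{k=0}^{(p-1)/2} C(2k,k)^3 (H_{2k} - H_k)`. -/
def S (p : ℕ) : ℚ :=
  ∑ k ∈ range ((p - 1) / 2 + 1), ((2 * k).choose k : ℚ) ^ 3 * (H (2 * k) - H k)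

/-- the integer `(p-1)! H_n` for `n < p`. -/
def hz (p n : ℕ) : ℤ := ∑ i ∈ range n, (((p - 1).factorial / (i + 1) : ℕ) : ℤ)

theorem H_eq (n : ℕ) : H n = ∑ i ∈ range n, (1 : ℚ) / ((i + 1 : ℕ) : ℚ) := by
  induction n with
  | zero => simp [H]
  | succ n ih => rw [H, Finset.sum_Icc_succ_top (by omega), sum_range_succ, ← ih, H]

theorem hz_rat (p n : ℕ) (hn : n < p) : ((hz p n : ℤ) : ℚ) = ((p - 1).factorial : ℚ) * H n := by
  rw [H_eq]
  unfold hz
  rw [Int.cast_sum, mul_sum]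
  refine sum_congr rfl fun i hi => ?_
  have hi' : i < n := by simpa using hi
  have hd : (i + 1) ∣ (p - 1).factorial := Nat.dvd_factorial (by omega) (by omega)
  have hne : ((i + 1 : ℕ) : ℚ) ≠ 0 := by exact_mod_cast Nat.succ_ne_zero i
  rw [Int.cast_natCast, Nat.cast_div hd hne]
  ring

theorem hz_mod (p n : ℕ) [hp : Fact p.Prime] (hn : n < p) :
    ((hz p n : ℤ) : ZMod p) = ((p - 1).factorial : ZMod p) * Hh (ZMod p) n := by
  unfold hz Hh
  rw [Int.cast_sum, mul_sum]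
  refine sum_congr rfl fun i hi => ?_
  have hi' : i < n := by simpa using hi
  have hd : (i + 1) ∣ (p - 1).factorial := Nat.dvd_factorial (by omega) (by omega)
  have hne : ((i + 1 : ℕ) : ZMod p) ≠ 0 := cast_ne p (i + 1) (by omega) (by omega)
  obtain ⟨c, hc⟩ := hd
  rw [Int.cast_natCast, hc, Nat.mul_div_cancel_left _ (Nat.succ_pos i), Nat.cast_mul]
  rw [mul_comm ((i + 1 : ℕ) : ZMod p), mul_assoc, mul_inv_cancel₀ hne, mul_one]

/-- **MP_8625e1_nt, Q1 (Jameson–Ono), in the affirmative.** For every prime `p > 3`, the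
numerator of `S(p)` in lowest terms is divisible by `p`. -/
theorem result (p : ℕ) (hp : p.Prime) (h3 : 3 < p) : (p : ℤ) ∣ (S p).num := by
  have hpf : Fact p.Prime := ⟨hp⟩
  by_cases h7 : p = 7
  · subst h7
    have : S 7 = 15190 / 3 := by
      unfold S
      simp [sum_range_succ, H, Nat.choose, Finset.sum_Icc_succ_top]
      norm_num
    rw [this]
    have h : ((15190 / 3 : ℚ)).num = 15190 := by norm_num
    rw [h]
    norm_num
  obtain ⟨m, hm⟩ : ∃ m, p = 2 * m + 1 := hp.odd_of_ne_two (by omega)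
  have hm2 : (p - 1) / 2 = m := by omega
  have hT := TS_zero p m hm h3 h7
  -- the integral multiple
  set Z : ℤ := ∑ k ∈ range (m + 1), ((k.centralBinom : ℕ) : ℤ) ^ 3 * (hz p (2 * k) - hz p k)
    with hZ
  have hZq : (Z : ℚ) = ((p - 1).factorial : ℚ) * S p := by
    rw [hZ]
    unfold S
    rw [hm2, Int.cast_sum, mul_sum]
    refine sum_congr rfl fun k hk => ?_
    have hk' : k ≤ m := by simpa [Nat.lt_succ_iff] using hk
    rw [Int.cast_mul, Int.cast_pow, Int.cast_sub, hz_rat p _ (by omega), hz_rat p _ (by omega),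
      Nat.centralBinom]
    push_cast
    ring
  have hZp : ((Z : ℤ) : ZMod p) = 0 := by
    rw [hZ, Int.cast_sum]
    have : ∀ k ∈ range (m + 1),
        ((((k.centralBinom : ℕ) : ℤ) ^ 3 * (hz p (2 * k) - hz p k) : ℤ) : ZMod p) =
        ((p - 1).factorial : ZMod p) * (((k.centralBinom : ℕ) : ZMod p) ^ 3
          * (Hh (ZMod p) (2 * k) - Hh (ZMod p) k)) := by
      intro k hk
      have hk' : k ≤ m := by simpa [Nat.lt_succ_iff] using hk
      rw [Int.cast_mul, Int.cast_pow, Int.cast_sub, hz_mod p _ (by omega), hz_mod p _ (by omega)]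
      push_cast
      ring
    rw [sum_congr rfl this, ← mul_sum]
    unfold TS at hT
    rw [hT, mul_zero]
  rw [ZMod.intCast_zmod_eq_zero_iff_dvd] at hZp
  have e : Z * ((S p).den : ℤ) = ((p - 1).factorial : ℤ) * (S p).num := by
    have : (Z : ℚ) * ((S p).den : ℚ) = ((p - 1).factorial : ℚ) * ((S p).num : ℚ) := by
      rw [hZq, mul_assoc, Rat.mul_den_eq_num]
    exact_mod_cast this
  have hd : (p : ℤ) ∣ ((p - 1).factorial : ℤ) * (S p).num := by
    rw [← e]; exact Dvd.dvd.mul_right hZp _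
  rcases (Nat.prime_iff_prime_int.1 hp).dvd_or_dvd hd with h | h
  · exfalso
    have h' : p ∣ (p - 1).factorial := by exact_mod_cast h
    rw [hp.dvd_factorial] at h'
    have := hp.pos
    omega
  · exact h

end Pool.Agent.Results.MP_8625e1_nt.JamesonOno
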